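import Mathlib

set_option autoImplicit false

namespace Pool.Agent.Work.MP_5f9c07_co

open Set Submodule Module

section
variable {α V : Type} (F : Type) [Finite α] [Field F] [AddCommGroup V] [Module F V]

lemma finrank_span_image {v : α → V} {I : Set α} (h : LinearIndepOn F v I) :
    finrank F (span F (v '' I)) = I.ncard := by
  classical
  have : Fintype I := Fintype.ofFinite I
  have := finrank_span_eq_card (R := F) (b := fun x : I => v x) h
  rw [show Set.range (fun x : I => v x) = v '' I by rw [Set.image_eq_range]] at this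
  rw [this, ← Nat.card_coe_set_eq, Nat.card_eq_fintype_card]

/-- The linear matroid of the vectors `v e`, `e ∈ E`. -/
noncomputable def linMat (v : α → V) (E : Set α) : Matroid α :=
  (IndepMatroid.ofFinite (E.toFinite) (fun I => I ⊆ E ∧ LinearIndepOn F v I)
    ⟨empty_subset _, linearIndepOn_empty _ _⟩
    (fun I J hJ hIJ => ⟨hIJ.trans hJ.1, hJ.2.mono hIJ⟩)
    (by
      intro I J hI hJ hlt
      by_contra hcon
      have hle : span F (v '' J) ≤ span F (v '' I) := by
        rw [span_le]
        rintro _ ⟨e, he, rfl⟩
        by_cases heI : e ∈ I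
        · exact subset_span ⟨e, heI, rfl⟩
        · by_contra hns
          exact hcon ⟨e, he, heI, insert_subset (hJ.1 he) hI.1, hI.2.insert hns⟩
      have hfin : FiniteDimensional F (span F (v '' I)) :=
        FiniteDimensional.span_of_finite F ((Set.toFinite I).image v)
      have := Submodule.finrank_mono hle
      rw [finrank_span_image F hI.2, finrank_span_image F hJ.2] at this
      omega)
    (fun I hI => hI.1)).matroid

variable (v : α → V) (E : Set α)

@[simp] lemma linMat_E : (linMat F v E).E = E := rfl

lemma linMat_indep {I : Set α} : (linMat F v E).Indep I ↔ I ⊆ E ∧ LinearIndepOn F v I := by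
  rfl

lemma span_basis {I X : Set α} (hIX : (linMat F v E).IsBasis I X) :
    span F (v '' I) = span F (v '' X) := by
  apply le_antisymm (span_mono (image_mono hIX.subset))
  rw [span_le]
  rintro _ ⟨e, he, rfl⟩
  by_contra hns
  have hI := (linMat_indep F v E).mp hIX.indep
  have heE : e ∈ E := hIX.subset_ground he
  have h1 : (linMat F v E).Indep (insert e I) :=
    (linMat_indep F v E).mpr ⟨insert_subset heE hI.1, hI.2.insert hns⟩
  have h2 := hIX.mem_of_insert_indep he h1
  exact hns (subset_span ⟨e, h2, rfl⟩)

lemma linMat_eRk {X : Set α} (hX : X ⊆ E) :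
    (linMat F v E).eRk X = (finrank F (span F (v '' X)) : ℕ∞) := by
  obtain ⟨I, hI⟩ := (linMat F v E).exists_isBasis X hX
  have hI' := (linMat_indep F v E).mp hI.indep
  rw [hI.eRk_eq_encard, ← span_basis F v E hI, finrank_span_image F hI'.2,
    (Set.toFinite I).cast_ncard_eq]

lemma linMat_mem_closure {X : Set α} (hX : X ⊆ E) {e : α} (he : e ∈ E) :
    e ∈ (linMat F v E).closure X ↔ v e ∈ span F (v '' X) := by
  obtain ⟨I, hI⟩ := (linMat F v E).exists_isBasis X hX
  have hI' := (linMat_indep F v E).mp hI.indep
  rw [← hI.closure_eq_closure, hI.indep.mem_closure_iff', ← span_basis F v E hI,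
    hI'.2.mem_span_iff, linMat_indep]
  constructor
  · rintro ⟨-, h⟩ h2
    exact h ⟨insert_subset he hI'.1, h2⟩
  · intro h
    exact ⟨he, fun h2 => h h2.2⟩

end

end Pool.Agent.Work.MP_5f9c07_co
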