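import Mathlib
import Pool.Agent.Work.MP_5f9c07_co.LinMat

set_option autoImplicit false

namespace Pool.Agent.Work.MP_5f9c07_co

open Set Submodule Module

section
variable {α W : Type} (F : Type) [Field F] [Fintype F] [AddCommGroup W] [Module F W]
  [Module.Finite F W]

/-- Crapo-Rota critical theorem for one functional -/
lemma crit [DecidableEq α] (w : α → W) (E : Finset α) :
    ∑ X ∈ E.powerset, (-1 : ℤ) ^ X.card *
      (Fintype.card F : ℤ) ^ (finrank F W - finrank F (span F (w '' (X : Set α)))) =
    Nat.card {f : Dual F W // ∀ e ∈ E, f (w e) ≠ 0} := by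
  classical
  have hfin : Finite (Dual F W) := Module.finite_of_finite F
  have : Fintype (Dual F W) := Fintype.ofFinite _
  have hcount : ∀ X : Finset α,
      ((Finset.univ.filter (fun f : Dual F W => ∀ e ∈ X, f (w e) = 0)).card : ℤ) =
      (Fintype.card F : ℤ) ^ (finrank F W - finrank F (span F (w '' (X : Set α)))) := by
    intro X
    have h1 : (Finset.univ.filter (fun f : Dual F W => ∀ e ∈ X, f (w e) = 0)).card =
        Fintype.card (span F (w '' (X : Set α))).dualAnnihilator := by
      rw [Fintype.card_of_subtype]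
      intro f
      rw [Finset.mem_filter, Submodule.mem_dualAnnihilator]
      simp only [Finset.mem_univ, true_and]
      constructor
      · intro h x hx
        have hle : span F (w '' (X : Set α)) ≤ LinearMap.ker f := by
          rw [span_le]
          rintro _ ⟨e, he, rfl⟩
          exact LinearMap.mem_ker.mpr (h e he)
        exact LinearMap.mem_ker.mp (hle hx)
      · intro h e he
        exact h _ (subset_span ⟨e, he, rfl⟩)
    have h2 : finrank F (span F (w '' (X : Set α))).dualAnnihilator =
        finrank F W - finrank F (span F (w '' (X : Set α))) := by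
      have := Subspace.finrank_add_finrank_dualAnnihilator_eq (span F (w '' (X : Set α)))
      omega
    rw [h1, Module.card_eq_pow_finrank (K := F), h2]
    push_cast
    rfl
  have h1 : ∀ f : Dual F W, (if (∀ e ∈ E, f (w e) ≠ 0) then (1 : ℤ) else 0) =
      ∑ X ∈ E.powerset, if (∀ e ∈ X, f (w e) = 0) then (-1 : ℤ) ^ X.card else 0 := by
    intro f
    rw [← Finset.sum_filter]
    have h2 : E.powerset.filter (fun X => ∀ e ∈ X, f (w e) = 0) =
        (E.filter (fun e => f (w e) = 0)).powerset := by
      ext X
      simp only [Finset.mem_filter, Finset.mem_powerset, Finset.subset_iff]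
      constructor
      · rintro ⟨h1, h2⟩ e he
        exact ⟨h1 he, h2 e he⟩
      · intro h
        exact ⟨fun e he => (h he).1, fun e he => (h he).2⟩
    rw [h2, Finset.sum_powerset_neg_one_pow_card]
    congr 1
    rw [eq_iff_iff, Finset.filter_eq_empty_iff]
  have h2 : (Nat.card {f : Dual F W // ∀ e ∈ E, f (w e) ≠ 0} : ℤ) =
      ∑ f : Dual F W, (if (∀ e ∈ E, f (w e) ≠ 0) then (1 : ℤ) else 0) := by
    rw [Finset.sum_boole, Nat.card_eq_fintype_card, Fintype.card_subtype]
  rw [h2, Finset.sum_congr rfl (fun f _ => h1 f), Finset.sum_comm]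
  refine Finset.sum_congr rfl (fun X _ => ?_)
  rw [← hcount X, ← Finset.sum_filter, Finset.sum_const, nsmul_eq_mul, mul_comm]

variable [Fintype α]

open Classical in
/-- the value of the characteristic polynomial at `q ^ j` -/
noncomputable def chi (q : ℤ) (N : Matroid α) (j : ℕ) : ℤ :=
  ∑ X ∈ Finset.univ.filter (fun X : Finset α => (↑X : Set α) ⊆ N.E),
        (-1 : ℤ) ^ X.card * (q ^ j) ^
          ((N.eRk N.E).toNat - (N.eRk (↑X : Set α)).toNat)

lemma chi_mul (w : α → W) (E : Set α) :
    (Fintype.card F : ℤ) ^ (finrank F W - finrank F (span F (w '' E))) *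
      chi (Fintype.card F : ℤ) (linMat F w E) 1 = Nat.card {f : Dual F W // ∀ e ∈ E, f (w e) ≠ 0} := by
  classical
  have h1 := crit F w E.toFinset
  have h2 : {f : Dual F W // ∀ e ∈ E.toFinset, f (w e) ≠ 0} =
      {f : Dual F W // ∀ e ∈ E, f (w e) ≠ 0} := by simp
  rw [h2] at h1
  rw [← h1, chi, Finset.mul_sum]
  apply Finset.sum_congr
  · ext X
    simp [Finset.subset_iff, Set.subset_def]
  · intro X hX
    have hXE : (X : Set α) ⊆ E := by
      intro e he
      have := Finset.mem_powerset.mp hX he
      simpa using this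
    rw [linMat_E, linMat_eRk F w E hXE, linMat_eRk F w E (Set.Subset.refl E)]
    have l1 : finrank F (span F (w '' (X : Set α))) ≤ finrank F (span F (w '' E)) :=
      Submodule.finrank_mono (span_mono (Set.image_mono hXE))
    have l2 : finrank F (span F (w '' E)) ≤ finrank F W := Submodule.finrank_le _
    simp only [pow_one, ENat.toNat_natCast]
    rw [mul_left_comm, ← pow_add]
    congr 2
    omega

lemma chi_pos (w : α → W) (E : Set α) (f : Dual F W) (hf : ∀ e ∈ E, f (w e) ≠ 0) :
    0 < chi (Fintype.card F : ℤ) (linMat F w E) 1 := by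
  have hfin : Finite (Dual F W) := Module.finite_of_finite F
  have h1 := chi_mul F w E
  have h2 : 0 < Nat.card {f : Dual F W // ∀ e ∈ E, f (w e) ≠ 0} :=
    Nat.card_pos_iff.mpr ⟨⟨⟨f, hf⟩⟩, inferInstance⟩
  have h3 : (0 : ℤ) < (Fintype.card F : ℤ) ^ (finrank F W - finrank F (span F (w '' E))) := by
    have : 0 < Fintype.card F := Fintype.card_pos
    positivity
  have h4 : (0 : ℤ) < (Fintype.card F : ℤ) ^ (finrank F W - finrank F (span F (w '' E))) *
      chi (Fintype.card F : ℤ) (linMat F w E) 1 := by
    rw [h1]; exact_mod_cast h2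
  exact (mul_pos_iff_of_pos_left h3).mp h4

lemma chi_zero (w : α → W) (E : Set α) (hf : ∀ f : Dual F W, ∃ e ∈ E, f (w e) = 0) :
    chi (Fintype.card F : ℤ) (linMat F w E) 1 = 0 := by
  have h1 := chi_mul F w E
  have h2 : Nat.card {f : Dual F W // ∀ e ∈ E, f (w e) ≠ 0} = 0 := by
    have : IsEmpty {f : Dual F W // ∀ e ∈ E, f (w e) ≠ 0} := by
      refine ⟨?_⟩
      rintro ⟨f, hf'⟩
      obtain ⟨e, he, h0⟩ := hf f
      exact hf' e he h0
    exact Nat.card_of_isEmpty
  rw [h2] at h1
  have h3 : (Fintype.card F : ℤ) ^ (finrank F W - finrank F (span F (w '' E))) ≠ 0 := by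
    have : 0 < Fintype.card F := Fintype.card_pos
    positivity
  rcases mul_eq_zero.mp h1 with h | h
  · exact absurd h h3
  · exact h

end

end Pool.Agent.Work.MP_5f9c07_co
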