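import Mathlib
import Pool.Agent.Work.MP_5f9c07_co.LinMat

set_option autoImplicit false

namespace Pool.Agent.Work.MP_5f9c07_co

open Set Submodule Module

section minor
variable {α V : Type} (F : Type) [Finite α] [Field F] [AddCommGroup V] [Module F V]

lemma minor (v : α → V) (E C D : Set α) (hC : C ⊆ E) :
    ((linMat F v E).contract C).delete D =
      linMat F (mkQ (span F (v '' C)) ∘ v) ((E \ C) \ D) := by
  obtain ⟨C0, hC0⟩ := (linMat F v E).exists_isBasis C hC
  have hC0' := (linMat_indep F v E).mp hC0.indep
  refine Matroid.ext_indep rfl ?_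
  intro I hI
  rw [Matroid.delete_indep_iff, hC0.contract_indep_iff, linMat_indep, linMat_indep]
  have hIE : I ⊆ (E \ C) \ D := hI
  have hd1 : Disjoint C I := by
    rw [Set.disjoint_left]
    intro x hx hx'
    exact (hIE hx').1.2 hx
  have hd2 : Disjoint I D := by
    rw [Set.disjoint_left]
    intro x hx hx'
    exact (hIE hx).2 hx'
  have hd0 : Disjoint C0 I := hd1.mono_left hC0.subset
  have key : ∀ p : Submodule F V, p = span F (v '' C0) →
      (LinearIndepOn F (mkQ p ∘ v) I ↔ LinearIndepOn F v (C0 ∪ I)) := by
    rintro _ rfl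
    exact hC0'.2.quotient_iff_union hd0
  rw [key _ (span_basis F v E hC0).symm, Set.union_comm C0 I]
  constructor
  · rintro ⟨⟨⟨-, h⟩, -⟩, -⟩
    exact ⟨hIE, h⟩
  · rintro ⟨-, h⟩
    exact ⟨⟨⟨Set.union_subset (fun x hx => (hIE hx).1.1) hC0'.1, h⟩, hd1⟩, hd2⟩

end minor

section graphic
variable {V : Type} (F : Type) [Field F] [AddCommGroup V] [Module F V] {n : ℕ}

/-- difference vector of an edge -/
def wv (U : Fin n → V) (e : Sym2 (Fin n)) : V := U e.sup - U e.inf

/-- non-loops -/
def E0 (n : ℕ) : Set (Sym2 (Fin n)) := {e | ¬ e.IsDiag}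

lemma wv_mk (U : Fin n → V) (u v : Fin n) :
    wv U s(u, v) = U u - U v ∨ wv U s(u, v) = - (U u - U v) := by
  unfold wv
  rw [Sym2.sup_mk, Sym2.inf_mk]
  rcases le_total u v with h | h
  · right
    rw [sup_eq_right.mpr h, inf_eq_left.mpr h]; simp
  · left
    rw [sup_eq_left.mpr h, inf_eq_right.mpr h]

/-- the standard basis vectors -/
def bv (i : Fin n) : Fin n → F := Pi.single i 1

lemma reach_mem (U : Fin n → V) (X : Set (Sym2 (Fin n))) {u v : Fin n}
    (h : (SimpleGraph.fromEdgeSet X).Reachable u v) :
    U u - U v ∈ span F (wv U '' X) := by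
  obtain ⟨p⟩ := h
  induction p with
  | nil => simp
  | @cons a b c hab q ih =>
    rw [SimpleGraph.fromEdgeSet_adj] at hab
    have h1 : wv U s(a, b) ∈ span F (wv U '' X) := subset_span ⟨_, hab.1, rfl⟩
    have h2 : U a - U b ∈ span F (wv U '' X) := by
      rcases wv_mk U a b with h | h
      · rwa [h] at h1
      · rw [h] at h1
        simpa using neg_mem h1
    have := add_mem h2 ih
    simpa using this

open Classical in
/-- sum of coordinates over a vertex set -/
noncomputable def sumOn (S : Set (Fin n)) : (Fin n → F) →ₗ[F] F where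
  toFun x := ∑ i, if i ∈ S then x i else 0
  map_add' x y := by
    rw [← Finset.sum_add_distrib]
    apply Finset.sum_congr rfl
    intro i _
    split_ifs <;> simp
  map_smul' c x := by
    simp only [RingHom.id_apply, smul_eq_mul, Finset.mul_sum]
    apply Finset.sum_congr rfl
    intro i _
    split_ifs <;> simp

lemma sumOn_bv (S : Set (Fin n)) (i : Fin n) [Decidable (i ∈ S)] :
    sumOn F S (bv F i) = if i ∈ S then 1 else 0 := by
  classical
  simp only [sumOn, bv, LinearMap.coe_mk, AddHom.coe_mk]
  rw [Finset.sum_eq_single i]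
  · simp
  · intro j _ hj
    simp [hj]
  · simp

lemma acyclic_iff (I : Set (Sym2 (Fin n))) (hI : I ⊆ E0 n) :
    LinearIndepOn F (wv (bv F)) I ↔ (SimpleGraph.fromEdgeSet I).IsAcyclic := by
  classical
  rw [SimpleGraph.isAcyclic_iff_forall_adj_isBridge]
  constructor
  · intro h u v huv
    rw [SimpleGraph.isBridge_iff, SimpleGraph.deleteEdges_fromEdgeSet]
    intro hr
    rw [SimpleGraph.fromEdgeSet_adj] at huv
    have h1 := reach_mem F (bv F) _ hr
    have h2 := h.notMem_span huv.1
    apply h2
    rcases wv_mk (bv F) u v with h3 | h3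
    · rw [h3]; exact h1
    · rw [h3]; exact neg_mem h1
  · intro h
    rw [linearIndepOn_iff_notMem_span]
    intro e he
    induction e using Sym2.ind with
    | _ u v =>
      have huv : u ≠ v := by
        have := hI he
        simpa [E0] using this
      have hadj : (SimpleGraph.fromEdgeSet I).Adj u v := by
        rw [SimpleGraph.fromEdgeSet_adj]; exact ⟨he, huv⟩
      have hb := h hadj
      rw [SimpleGraph.isBridge_iff, SimpleGraph.deleteEdges_fromEdgeSet] at hb
      set G' := SimpleGraph.fromEdgeSet (I \ {s(u, v)}) with hG'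
      set S : Set (Fin n) := {i | G'.Reachable u i} with hS
      intro hmem
      have hle : span F (wv (bv F) '' (I \ {s(u, v)})) ≤ LinearMap.ker (sumOn F S) := by
        rw [span_le]
        rintro _ ⟨e', he', rfl⟩
        induction e' using Sym2.ind with
        | _ a b =>
          have hab : a ≠ b := by
            have := hI he'.1
            simpa [E0] using this
          have hadj' : G'.Adj a b := by
            rw [hG', SimpleGraph.fromEdgeSet_adj]; exact ⟨he', hab⟩
          have hiff : a ∈ S ↔ b ∈ S :=
            ⟨fun k => SimpleGraph.Reachable.trans k hadj'.reachable,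
              fun k => SimpleGraph.Reachable.trans k hadj'.symm.reachable⟩
          have h0 : sumOn F S (bv F a - bv F b) = 0 := by
            rw [map_sub, sumOn_bv, sumOn_bv]
            by_cases ha : a ∈ S
            · simp [ha, hiff.mp ha]
            · have hb' : b ∉ S := fun k => ha (hiff.mpr k)
              simp [ha, hb']
          rw [SetLike.mem_coe, LinearMap.mem_ker]
          rcases wv_mk (bv F) a b with h3 | h3
          · rw [h3, h0]
          · rw [h3, map_neg, h0, neg_zero]
      have h1 := LinearMap.mem_ker.mp (hle hmem)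
      have hu : u ∈ S := SimpleGraph.Reachable.refl _
      have hv : v ∉ S := hb
      have h0 : sumOn F S (bv F u - bv F v) = 1 := by
        rw [map_sub, sumOn_bv, sumOn_bv]
        simp [hu, hv]
      rcases wv_mk (bv F) u v with h3 | h3
      · rw [h3, h0] at h1; exact one_ne_zero h1
      · rw [h3, map_neg, h0] at h1
        exact one_ne_zero (neg_eq_zero.mp h1)

/-- the cycle matroid of the complete graph -/
noncomputable def cycK (n : ℕ) : Matroid (Sym2 (Fin n)) := linMat F (wv (bv F)) (E0 n)

lemma flat_of_flat (U : Fin n → V) (X : Set (Sym2 (Fin n)))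
    (hX : (linMat F (wv U) (E0 n)).IsFlat X) : (cycK F n).IsFlat X := by
  have hXE : X ⊆ E0 n := hX.subset_ground
  rw [Matroid.isFlat_iff_closure_eq]
  apply Set.Subset.antisymm
  · intro e he
    have heE : e ∈ E0 n := (cycK F n).closure_subset_ground X he
    rw [cycK, linMat_mem_closure F _ _ hXE heE] at he
    rw [← hX.closure, linMat_mem_closure F _ _ hXE heE]
    let T : (Fin n → F) →ₗ[F] V := (Pi.basisFun F (Fin n)).constr F U
    have hT : ∀ i, T (bv F i) = U i := by
      intro i
      have := (Pi.basisFun F (Fin n)).constr_basis F U i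
      rw [Pi.basisFun_apply] at this
      exact this
    have hTw : ∀ e, T (wv (bv F) e) = wv U e := by
      intro e
      simp only [wv, map_sub, hT]
    have h1 : T (wv (bv F) e) ∈ (span F (wv (bv F) '' X)).map T := ⟨_, he, rfl⟩
    rw [Submodule.map_span, ← Set.image_comp] at h1
    have h2 : (⇑T ∘ wv (bv F)) '' X = wv U '' X := by
      apply Set.image_congr
      intro e _
      exact hTw e
    rw [h2, hTw] at h1
    exact h1
  · exact (cycK F n).subset_closure X hXE

end graphic

end Pool.Agent.Work.MP_5f9c07_co
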