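import Mathlib
import Pool.Agent.Work.MP_5f9c07_co.Crit
import Pool.Agent.Work.MP_5f9c07_co.Graphic

set_option autoImplicit false

namespace Pool.Agent.Work.MP_5f9c07_co

open Set Submodule Module

abbrev F5 : Type := ZMod 5
abbrev V3 : Type := Fin 3 → ZMod 5

instance : Fact (Nat.Prime 5) := ⟨by norm_num⟩

/-- scalar product -/
def dot (a b : V3) : F5 := a 0 * b 0 + a 1 * b 1 + a 2 * b 2

/-- cross product -/
def cr (a b : V3) : V3 := ![a 1 * b 2 - a 2 * b 1, a 2 * b 0 - a 0 * b 2, a 0 * b 1 - a 1 * b 0]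

/-- determinant -/
def det3 (a b c : V3) : F5 := dot (cr a b) c

/-- scalar product as a functional -/
def dotL (a : V3) : Dual F5 V3 where
  toFun b := dot a b
  map_add' x y := by simp only [dot, Pi.add_apply]; ring
  map_smul' c x := by simp only [dot, Pi.smul_apply, smul_eq_mul, RingHom.id_apply]; ring

lemma dotL_apply (a b : V3) : dotL a b = dot a b := rfl

lemma dual_eq (f : Dual F5 V3) : ∃ a : V3, ∀ x, f x = dot a x := by
  refine ⟨![f (Pi.single 0 1), f (Pi.single 1 1), f (Pi.single 2 1)], ?_⟩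
  intro x
  have hx : x = x 0 • (Pi.single 0 1 : V3) + x 1 • (Pi.single 1 1 : V3) +
      x 2 • (Pi.single 2 1 : V3) := by
    ext i
    fin_cases i <;> simp
  conv_lhs => rw [hx]
  simp only [map_add, map_smul, smul_eq_mul, dot, Matrix.cons_val_zero, Matrix.cons_val_one,
    Matrix.cons_val]
  ring

lemma cramer (a b c x : V3) :
    det3 a b c • x = det3 x b c • a + det3 a x c • b + det3 a b x • c := by
  ext i
  fin_cases i <;> simp [det3, dot, cr] <;> ring

lemma mem_span3 (a b c x : V3) (h : det3 a b c ≠ 0) : x ∈ span F5 {a, b, c} := by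
  have h1 := cramer a b c x
  have h2 : x = (det3 a b c)⁻¹ • (det3 x b c • a + det3 a x c • b + det3 a b x • c) := by
    rw [← h1, smul_smul, inv_mul_cancel₀ h, one_smul]
  rw [h2]
  apply Submodule.smul_mem
  refine add_mem (add_mem (smul_mem _ _ ?_) (smul_mem _ _ ?_)) (smul_mem _ _ ?_)
  · exact subset_span (by simp)
  · exact subset_span (by simp)
  · exact subset_span (by simp)

lemma mem_span2 (a b x : V3) (h : cr a b ≠ 0) (hx : det3 a b x = 0) : x ∈ span F5 {a, b} := by
  obtain ⟨k, hk⟩ : ∃ k, cr a b k ≠ 0 := by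
    by_contra hcon
    push Not at hcon
    exact h (funext hcon)
  have hk' : det3 a b (Pi.single k 1) ≠ 0 := by
    have : det3 a b (Pi.single k 1) = cr a b k := by
      unfold det3 dot
      fin_cases k <;> simp
    rwa [this]
  set c : V3 := Pi.single k 1
  have h1 := cramer a b c x
  rw [hx, zero_smul, add_zero] at h1
  have h2 : x = (det3 a b c)⁻¹ • (det3 x b c • a + det3 a x c • b) := by
    rw [← h1, smul_smul, inv_mul_cancel₀ hk', one_smul]
  rw [h2]
  apply Submodule.smul_mem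
  refine add_mem (smul_mem _ _ ?_) (smul_mem _ _ ?_)
  · exact subset_span (by simp)
  · exact subset_span (by simp)

/-- the vertices of the triangular prism -/
def U : Fin 6 → V3 := ![![0,0,0], ![1,0,0], ![0,1,0], ![0,0,1], ![0,1,1], ![1,0,1]]

/-- representatives of the ten parallel classes of edges -/
def g : Fin 10 → Sym2 (Fin 6) :=
  ![s(0,1), s(0,2), s(0,3), s(0,4), s(0,5), s(1,2), s(1,3), s(1,4), s(2,3), s(2,5)]

/-- the ten vectors -/
def v : Fin 10 → V3 :=
  ![![1,0,0], ![0,1,0], ![0,0,1], ![0,1,1], ![1,0,1], ![4,1,0], ![4,0,1], ![4,1,1], ![0,4,1],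
    ![1,4,1]]

/-- tangent functionals -/
def t : Fin 10 → V3 :=
  ![![0,1,2], ![1,0,2], ![1,2,0], ![1,2,3], ![1,3,4], ![1,1,2], ![1,3,1], ![1,4,2], ![1,2,2],
    ![1,4,3]]

lemma v_eq (i : Fin 10) : v i = wv U (g i) := by
  revert i; decide

lemma v_ne (e : Fin 10) : v e ≠ 0 := by
  revert e; decide

lemma cr_ne : ∀ e f : Fin 10, e ≠ f → cr (v e) (v f) ≠ 0 := by
  decide +kernel

lemma blocking : ∀ a b c : F5, ∃ e : Fin 10, dot ![a, b, c] (v e) = 0 := by
  decide +kernel

lemma tangent : ∀ e e' : Fin 10, dot (t e) (v e') = 0 ↔ e' = e := by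
  decide +kernel

lemma disjoint_lines : ∀ c c' : Fin 10, c ≠ c' →
    ∃ p ∈ ([(6,9),(3,9),(3,6),(7,8)] : List (Fin 10 × Fin 10)),
      ∀ e : Fin 10, ¬ (det3 (v c) (v c') (v e) = 0 ∧ det3 (v p.1) (v p.2) (v e) = 0) := by
  decide +kernel

lemma pair_indep : ∀ e f : Fin 10, e ≠ f → ∀ a b : F5, a • v e + b • v f = 0 → a = 0 ∧ b = 0 := by
  decide +kernel

end Pool.Agent.Work.MP_5f9c07_co
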